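import Pool.Agent.Q181.Cubic.Degenerate

/-! MP_e813cc_gt, Q2: the spectral sequence of `X^{n,r}` degenerates at page `i(r)`, where
`i(r) = (2r+2)^(r (r+2)^⌊r/2⌋) + 1` does not depend on `n`. -/

set_option autoImplicit false

universe u

namespace Pool.Agent.Results.MP_e813cc_gt.DegenerationPage

open Q181.Cubic

/-- The spectral sequence of `X^{n,r}` over `𝕜` degenerates at page `i₀`: all differentials
`d^i`, `i ≥ i₀`, vanish (in every bidegree `(p, q)`, `p + q = d`; the chain groups of negative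
degree are zero). -/
def DegeneratesAt (𝕜 : Type u) [Field 𝕜] (n r : ℕ) (pos : (Fin n → Bool) → ℕ) (i₀ : ℕ) : Prop :=
  ∀ i : ℕ, i₀ ≤ i → ∀ (p : ℤ) (d : ℕ), DiffZero pos 𝕜 r i p d

/-- The page. -/
def page (r : ℕ) : ℕ := (2 * r + 2) ^ (r * (r + 2) ^ (r / 2)) + 1

theorem result (𝕜 : Type u) [Field 𝕜] (n r : ℕ) (pos : (Fin n → Bool) → ℕ)
    (hpos : Function.Injective pos) : DegeneratesAt 𝕜 n r pos (page r) :=
  fun i hi p d => diffZero pos hpos r i (Nat.lt_of_succ_le hi) p d

end Pool.Agent.Results.MP_e813cc_gt.DegenerationPage
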